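import Mathlib

/-!
# Vector configurations over a finite field with bounded circuits

A finite configuration of pairwise non-parallel nonzero vectors over a finite field, all of whose
circuits have at most `c` elements, has at most `C * rank` elements, with `C` depending only on `c`
and the size of the field.
-/

set_option autoImplicit false

open Finset Submodule

namespace Q10.Heller

universe u

/-- `T` is a circuit of the configuration `v`. -/
def IsCirc (F : Type*) [Field F] {V : Type*} [AddCommGroup V] [Module F V] {ι : Type*}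
    (v : ι → V) (T : Finset ι) : Prop :=
  ∃ γ : ι → F, (∀ i ∈ T, γ i ≠ 0) ∧ T.Nonempty ∧ ∑ i ∈ T, γ i • v i = 0 ∧
    ∀ e : ι → F, ∑ i ∈ T, e i • v i = 0 → ∃ τ : F, ∀ i ∈ T, e i = τ * γ i

section

variable {F : Type*} [Field F] {V : Type*} [AddCommGroup V] [Module F V] {ι : Type*}
  [DecidableEq ι] {v : ι → V}

/-- A nontrivial relation contains a circuit. -/
theorem exists_circ : ∀ (T : Finset ι) (e : ι → F), ∑ i ∈ T, e i • v i = 0 →
    (∃ i ∈ T, e i ≠ 0) → ∃ T' ⊆ T, IsCirc F v T' := by
  classical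
  intro T
  induction T using Finset.strongInduction with
  | H T ih =>
    intro e he hne
    obtain ⟨T1, hT1⟩ : ∃ T1, T1 = T.filter (fun i => e i ≠ 0) := ⟨_, rfl⟩
    have hsub : T1 ⊆ T := by rw [hT1]; exact filter_subset _ _
    have hsum : ∑ i ∈ T1, e i • v i = 0 := by
      rw [← he, hT1]
      apply sum_filter_of_ne
      intro i _ h h0
      exact h (by rw [h0, zero_smul])
    have hT1ne : T1.Nonempty := by
      obtain ⟨i, hi, hi0⟩ := hne
      exact ⟨i, by rw [hT1, mem_filter]; exact ⟨hi, hi0⟩⟩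
    have hT1nz : ∀ i ∈ T1, e i ≠ 0 := by
      intro i hi
      rw [hT1, mem_filter] at hi
      exact hi.2
    by_cases hc : ∀ e' : ι → F, ∑ i ∈ T1, e' i • v i = 0 → ∃ τ : F, ∀ i ∈ T1, e' i = τ * e i
    · exact ⟨T1, hsub, e, hT1nz, hT1ne, hsum, hc⟩
    · push Not at hc
      obtain ⟨e', he', hne'⟩ := hc
      obtain ⟨i0, hi0⟩ := hT1ne
      obtain ⟨i1, hi1, hne1⟩ := hne' (e' i0 / e i0)
      have h0 := hT1nz i0 hi0
      obtain ⟨e2, he2⟩ : ∃ e2 : ι → F, e2 = fun i => e' i - e' i0 / e i0 * e i := ⟨_, rfl⟩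
      have he20 : e2 i0 = 0 := by
        rw [he2]
        dsimp only
        rw [div_mul_cancel₀ _ h0, sub_self]
      have he21 : e2 i1 ≠ 0 := by
        rw [he2]
        dsimp only
        exact sub_ne_zero.2 hne1
      have hi10 : i1 ≠ i0 := by
        rintro rfl
        exact he21 he20
      have hsum2 : ∑ i ∈ T1.erase i0, e2 i • v i = 0 := by
        have h1 : ∑ i ∈ T1, e2 i • v i = 0 := by
          rw [he2]
          simp only [sub_smul, mul_smul, sum_sub_distrib, ← smul_sum]
          rw [he', hsum, smul_zero, sub_zero]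
        rw [← add_sum_erase T1 _ hi0, he20, zero_smul, zero_add] at h1
        exact h1
      obtain ⟨T', hT', hcirc⟩ := ih (T1.erase i0) ((erase_ssubset hi0).trans_subset hsub) e2 hsum2
        ⟨i1, mem_erase.2 ⟨hi10, hi1⟩, he21⟩
      exact ⟨T', hT'.trans ((erase_subset _ _).trans hsub), hcirc⟩

/-- A configuration without circuits has at most `finrank` elements. -/
theorem card_le_of_no_circ [FiniteDimensional F V] (S : Finset ι)
    (h : ∀ T ⊆ S, ¬ IsCirc F v T) : S.card ≤ Module.finrank F V := by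
  have hli : LinearIndepOn F v (S : Set ι) := by
    rw [linearIndepOn_finset_iff]
    intro e he i hi
    by_contra hne
    obtain ⟨T, hT, hc⟩ := exists_circ S e he ⟨i, hi, hne⟩
    exact h T hT hc
  have h1 := LinearIndependent.fintype_card_le_finrank hli
  simpa using h1

theorem key {C D : Finset ι} (hC : IsCirc F v C) (hdisj : Disjoint C D) (hD : D.Nonempty)
    {α : ι → F} (hα : ∀ i ∈ D, α i ≠ 0)
    (hw : ∑ i ∈ D, α i • v i ∈ span F (v '' (C : Set ι))) (hw0 : ∑ i ∈ D, α i • v i ≠ 0)
    (huniq : ∀ e : ι → F, ∑ i ∈ D, e i • v i ∈ span F (v '' (C : Set ι)) →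
      ∃ τ : F, ∀ i ∈ D, e i = τ * α i) :
    ∃ T ⊆ C, C.card ≤ 2 * T.card ∧ IsCirc F v (D ∪ T) := by
  classical
  obtain ⟨γ, hγ, hCne, hγ0, hγu⟩ := hC
  obtain ⟨β, hβ⟩ := (mem_span_image_finset_iff_exists_fun' F).1 hw
  have hex : ∃ r : F, ∃ i0 ∈ C, β i0 + r * γ i0 = 0 ∧
      C.card ≤ 2 * (C.filter (fun i => β i + r * γ i ≠ 0)).card := by
    have hne : ∃ i1 ∈ C, ∃ i2 ∈ C, - β i1 / γ i1 ≠ - β i2 / γ i2 := by
      by_contra hcon
      push Not at hcon
      obtain ⟨i0, hi0⟩ := hCne
      apply hw0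
      rw [← hβ]
      have : ∀ i ∈ C, β i = (β i0 / γ i0) * γ i := by
        intro i hi
        have h1 := hcon i hi i0 hi0
        have h2 := hγ i hi
        have h3 := hγ i0 hi0
        rw [neg_div, neg_div, neg_inj] at h1
        rw [← h1, div_mul_cancel₀ _ h2]
      rw [sum_congr rfl (fun i hi => by rw [this i hi, mul_smul]), ← smul_sum, hγ0, smul_zero]
    obtain ⟨i1, hi1, i2, hi2, h12⟩ := hne
    have hz : ∀ i ∈ C, β i + (- β i / γ i) * γ i = 0 := by
      intro i hi
      rw [div_mul_cancel₀ _ (hγ i hi), add_neg_cancel]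
    have hcard : ∀ r : F, (C.filter (fun i => β i + r * γ i = 0)).card +
        (C.filter (fun i => β i + r * γ i ≠ 0)).card = C.card := fun r =>
      card_filter_add_card_filter_not _
    have hd : Disjoint (C.filter (fun i => β i + (- β i1 / γ i1) * γ i = 0))
        (C.filter (fun i => β i + (- β i2 / γ i2) * γ i = 0)) := by
      rw [disjoint_left]
      intro i h1 h2
      rw [mem_filter] at h1 h2
      apply h12
      have h3 := hγ i h1.1
      have h4 : (- β i1 / γ i1) * γ i = (- β i2 / γ i2) * γ i := by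
        linear_combination h1.2 - h2.2
      exact mul_right_cancel₀ h3 h4
    have hle : (C.filter (fun i => β i + (- β i1 / γ i1) * γ i = 0)).card +
        (C.filter (fun i => β i + (- β i2 / γ i2) * γ i = 0)).card ≤ C.card := by
      rw [← card_union_of_disjoint hd]
      exact card_le_card (union_subset (filter_subset _ _) (filter_subset _ _))
    have h1 := hcard (- β i1 / γ i1)
    have h2 := hcard (- β i2 / γ i2)
    rcases le_total (C.filter (fun i => β i + (- β i1 / γ i1) * γ i = 0)).card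
      (C.filter (fun i => β i + (- β i2 / γ i2) * γ i = 0)).card with h | h
    · exact ⟨_, i1, hi1, hz i1 hi1, by omega⟩
    · exact ⟨_, i2, hi2, hz i2 hi2, by omega⟩
  obtain ⟨r, i0, hi0, hi00, hcard⟩ := hex
  obtain ⟨T, hT⟩ : ∃ T, T = C.filter (fun i => β i + r * γ i ≠ 0) := ⟨_, rfl⟩
  rw [← hT] at hcard
  have hTC : T ⊆ C := by rw [hT]; exact filter_subset _ _
  have hDT : Disjoint D T := (hdisj.mono_left hTC).symm
  have hTsum : ∑ i ∈ T, (β i + r * γ i) • v i = ∑ i ∈ D, α i • v i := by
    have h1 : ∑ i ∈ C, (β i + r * γ i) • v i = ∑ i ∈ D, α i • v i := by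
      simp only [add_smul, mul_smul, sum_add_distrib, ← smul_sum]
      rw [hγ0, smul_zero, add_zero, hβ]
    rw [← h1, hT]
    apply sum_filter_of_ne
    intro i _ h h0
    exact h (by rw [h0, zero_smul])
  refine ⟨T, hTC, hcard, fun i => if i ∈ D then α i else - (β i + r * γ i), ?_, ?_, ?_, ?_⟩
  · intro i hi
    dsimp only
    by_cases hiD : i ∈ D
    · rw [if_pos hiD]; exact hα i hiD
    · rw [if_neg hiD]
      have hiT : i ∈ T := (mem_union.1 hi).resolve_left hiD
      rw [hT, mem_filter] at hiT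
      exact neg_ne_zero.2 hiT.2
  · exact hD.mono subset_union_left
  · rw [sum_union hDT]
    have h1 : ∑ i ∈ D, (if i ∈ D then α i else - (β i + r * γ i)) • v i = ∑ i ∈ D, α i • v i :=
      sum_congr rfl (fun i hi => by rw [if_pos hi])
    have h2 : ∑ i ∈ T, (if i ∈ D then α i else - (β i + r * γ i)) • v i =
        - ∑ i ∈ T, (β i + r * γ i) • v i := by
      rw [← sum_neg_distrib]
      exact sum_congr rfl (fun i hi => by
        rw [if_neg (disjoint_right.1 hDT hi), neg_smul])
    rw [h1, h2, hTsum, add_neg_cancel]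
  · intro e he
    rw [sum_union hDT] at he
    have hmem : ∑ i ∈ D, e i • v i ∈ span F (v '' (C : Set ι)) := by
      rw [eq_neg_of_add_eq_zero_left he]
      apply neg_mem
      apply sum_mem
      intro i hi
      exact smul_mem _ _ (subset_span ⟨i, hTC hi, rfl⟩)
    obtain ⟨σ, hσ⟩ := huniq e hmem
    have h1 : ∑ i ∈ D, e i • v i = σ • ∑ i ∈ D, α i • v i := by
      rw [smul_sum]
      exact sum_congr rfl (fun i hi => by rw [hσ i hi, mul_smul])
    have h2 : ∑ i ∈ T, (e i + σ * (β i + r * γ i)) • v i = 0 := by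
      have h3 : ∑ i ∈ T, (e i + σ * (β i + r * γ i)) • v i =
          ∑ i ∈ T, e i • v i + σ • ∑ i ∈ T, (β i + r * γ i) • v i := by
        rw [smul_sum, ← sum_add_distrib]
        exact sum_congr rfl (fun i _ => by rw [add_smul, mul_smul])
      rw [h3, hTsum, ← h1, add_comm]
      exact he
    obtain ⟨κ, hκ⟩ := hγu (fun i => if i ∈ T then e i + σ * (β i + r * γ i) else 0) (by
      rw [← h2]
      have h3 : ∑ i ∈ C, (if i ∈ T then e i + σ * (β i + r * γ i) else 0) • v i =
          ∑ i ∈ C, if i ∈ T then (e i + σ * (β i + r * γ i)) • v i else 0 := by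
        apply sum_congr rfl
        intro i _
        split_ifs
        · rfl
        · rw [zero_smul]
      rw [h3, ← sum_filter]
      congr 1
      ext i
      simp only [mem_filter]
      exact ⟨fun h => h.2, fun h => ⟨hTC h, h⟩⟩)
    have hi0T : i0 ∉ T := by
      rw [hT, mem_filter]
      exact fun h => h.2 hi00
    have hκ0 : κ = 0 := by
      have h3 := hκ i0 hi0
      rw [if_neg hi0T] at h3
      exact (mul_eq_zero.1 h3.symm).resolve_right (hγ i0 hi0)
    refine ⟨σ, fun i hi => ?_⟩
    dsimp only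
    by_cases hiD : i ∈ D
    · rw [if_pos hiD]; exact hσ i hiD
    · rw [if_neg hiD]
      have hiT : i ∈ T := (mem_union.1 hi).resolve_left hiD
      have h3 := hκ i (hTC hiT)
      rw [if_pos hiT, hκ0, zero_mul] at h3
      linear_combination h3

/-- Circuits of the quotient by the span of a circuit. -/
theorem circ_quot {C T : Finset ι} (hC : IsCirc F v C) (hdisj : Disjoint C T)
    (hT : IsCirc F (fun i => (span F (v '' (C : Set ι))).mkQ (v i)) T) :
    IsCirc F v T ∨ ∃ T2 ⊆ C, C.card ≤ 2 * T2.card ∧ IsCirc F v (T ∪ T2) := by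
  obtain ⟨γ, hγ, hne, h0, hu⟩ := hT
  have hmem : ∀ e : ι → F, ∑ i ∈ T, e i • (span F (v '' (C : Set ι))).mkQ (v i) = 0 ↔
      ∑ i ∈ T, e i • v i ∈ span F (v '' (C : Set ι)) := by
    intro e
    rw [← Submodule.Quotient.mk_eq_zero, ← mkQ_apply, map_sum]
    simp only [map_smul]
  by_cases hw : ∑ i ∈ T, γ i • v i = 0
  · left
    refine ⟨γ, hγ, hne, hw, fun e he => hu e ?_⟩
    rw [hmem, he]
    exact zero_mem _
  · right
    exact key hC hdisj hne hγ ((hmem γ).1 h0) hw (fun e he => hu e ((hmem e).2 he))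

theorem circ_swap {C T : Finset ι} (hC : IsCirc F v C) (hdisj : Disjoint C T)
    (hT : IsCirc F (fun i => (span F (v '' (C : Set ι))).mkQ (v i)) T) {x y : ι} (hx : x ∈ T)
    (hy : y ∉ T) (hyC : y ∉ C) {β : F} (hβ : β ≠ 0)
    (hyx : v y - β • v x ∈ span F (v '' (C : Set ι))) (hne : v y - β • v x ≠ 0) :
    (∃ T2 ⊆ C, C.card ≤ 2 * T2.card ∧ IsCirc F v (T ∪ T2)) ∨
      ∃ T2 ⊆ C, C.card ≤ 2 * T2.card ∧ IsCirc F v (insert y (T.erase x) ∪ T2) := by
  obtain ⟨γ, hγ, hTne, h0, hu⟩ := hT
  have hmem : ∀ e : ι → F, ∑ i ∈ T, e i • (span F (v '' (C : Set ι))).mkQ (v i) = 0 ↔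
      ∑ i ∈ T, e i • v i ∈ span F (v '' (C : Set ι)) := by
    intro e
    rw [← Submodule.Quotient.mk_eq_zero, ← mkQ_apply, map_sum]
    simp only [map_smul]
  by_cases hw : ∑ i ∈ T, γ i • v i = 0
  · right
    have hyE : y ∉ T.erase x := fun h => hy (mem_of_mem_erase h)
    -- the sum over the new set
    have hsum : ∀ e : ι → F, ∑ i ∈ insert y (T.erase x), e i • v i =
        e y • (v y - β • v x) + ∑ i ∈ T, (if i = x then e y * β else e i) • v i := by
      intro e
      rw [sum_insert hyE, ← add_sum_erase T _ hx, if_pos rfl]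
      have h1 : ∑ i ∈ T.erase x, (if i = x then e y * β else e i) • v i =
          ∑ i ∈ T.erase x, e i • v i :=
        sum_congr rfl (fun i hi => by rw [if_neg (ne_of_mem_erase hi)])
      rw [h1, smul_sub, mul_smul]
      abel
    have hxγ := hγ x hx
    have hyx' : y ≠ x := by rintro rfl; exact hy hx
    obtain ⟨α, hα⟩ : ∃ α : ι → F, α = fun i => if i = y then γ x / β else γ i := ⟨_, rfl⟩
    have hαy : α y = γ x / β := by rw [hα]; simp
    have hαs : ∑ i ∈ insert y (T.erase x), α i • v i = (γ x / β) • (v y - β • v x) := by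
      rw [hsum, hαy, div_mul_cancel₀ _ hβ]
      have h1 : ∑ i ∈ T, (if i = x then γ x else α i) • v i = ∑ i ∈ T, γ i • v i := by
        apply sum_congr rfl
        intro i hi
        congr 1
        split_ifs with h
        · rw [h]
        · rw [hα]
          dsimp only
          rw [if_neg]
          rintro rfl
          exact hy hi
      rw [h1, hw, add_zero]
    refine key hC (D := insert y (T.erase x)) (α := α) ?_ ?_ ?_ ?_ ?_ ?_
    · rw [disjoint_insert_right]
      exact ⟨hyC, hdisj.mono_right (erase_subset _ _)⟩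
    · exact insert_nonempty _ _
    · intro i hi
      rw [hα]
      dsimp only
      split_ifs with h
      · exact div_ne_zero hxγ hβ
      · rw [mem_insert] at hi
        exact hγ i (mem_of_mem_erase (hi.resolve_left h))
    · rw [hαs]
      exact smul_mem _ _ hyx
    · rw [hαs]
      exact smul_ne_zero (div_ne_zero hxγ hβ) hne
    · intro e he
      rw [hsum] at he
      have h1 : ∑ i ∈ T, (if i = x then e y * β else e i) • v i ∈
          span F (v '' (C : Set ι)) := by
        have h2 := sub_mem he (smul_mem _ (e y) hyx)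
        rwa [add_sub_cancel_left] at h2
      obtain ⟨τ, hτ⟩ := hu _ ((hmem _).2 h1)
      refine ⟨τ, fun i hi => ?_⟩
      rw [mem_insert] at hi
      rcases hi with rfl | hi
      · have h2 := hτ x hx
        rw [if_pos rfl] at h2
        rw [hαy]
        field_simp
        exact h2
      · have h2 := hτ i (mem_of_mem_erase hi)
        rw [if_neg (ne_of_mem_erase hi)] at h2
        rw [h2, hα]
        dsimp only
        rw [if_neg]
        rintro rfl
        exact hyE hi
  · left
    exact key hC hdisj hTne hγ ((hmem γ).1 h0) hw (fun e he => hu e ((hmem e).2 he))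

end

end Q10.Heller
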