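import Pool.Agent.Q10.Heller.Circ

/-!
# The linear bound for simple configurations with bounded circuits
-/

set_option autoImplicit false

open Finset Submodule

namespace Q10.Heller

universe u

section

variable {F : Type*} [Field F] [Fintype F] {ι : Type*} [DecidableEq ι]

/-- number of elements of a submodule -/
theorem card_in_span {V : Type*} [AddCommGroup V] [Module F V] {v : ι → V} {S C : Finset ι}
    (hinj : ∀ i ∈ S, ∀ j ∈ S, v i = v j → i = j) {n : ℕ} (hn : C.card ≤ n)
    (hS : ∀ i ∈ S, v i ∈ span F (v '' (C : Set ι))) : S.card ≤ Fintype.card F ^ n := by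
  classical
  have hfd : Module.Finite F (span F (v '' (C : Set ι))) := by
    apply Module.Finite.span_of_finite
    exact (C.finite_toSet).image v
  haveI : Finite (span F (v '' (C : Set ι))) := Module.finite_of_finite F
  haveI : Fintype (span F (v '' (C : Set ι))) := Fintype.ofFinite _
  have h1 : Fintype.card (span F (v '' (C : Set ι))) =
      Fintype.card F ^ Module.finrank F (span F (v '' (C : Set ι))) :=
    Module.card_eq_pow_finrank
  have h2 : Module.finrank F (span F (v '' (C : Set ι))) ≤ n := by
    refine le_trans ?_ hn
    have h3 := finrank_span_finset_le_card (R := F) (C.image v)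
    rw [coe_image] at h3
    exact h3.trans card_image_le
  have h3 : S.card ≤ Fintype.card (span F (v '' (C : Set ι))) := by
    rw [← Fintype.card_coe S]
    apply Fintype.card_le_of_injective (fun i : S => (⟨v i.1, hS i.1 i.2⟩ :
      span F (v '' (C : Set ι))))
    intro i j hij
    have h4 := congrArg Subtype.val hij
    exact Subtype.ext (hinj i.1 i.2 j.1 j.2 h4)
  calc S.card ≤ _ := h3
    _ = _ := h1
    _ ≤ _ := Nat.pow_le_pow_right Fintype.card_pos h2

theorem circ_quot' {V : Type*} [AddCommGroup V] [Module F V] {v : ι → V} {W : Submodule F V}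
    {C T : Finset ι} (hW : W = span F (v '' (C : Set ι))) (hC : IsCirc F v C)
    (hdisj : Disjoint C T) (hT : IsCirc F (fun i => W.mkQ (v i)) T) :
    IsCirc F v T ∨ ∃ T2 ⊆ C, C.card ≤ 2 * T2.card ∧ IsCirc F v (T ∪ T2) := by
  subst hW
  exact circ_quot hC hdisj hT

theorem circ_swap' {V : Type*} [AddCommGroup V] [Module F V] {v : ι → V} {W : Submodule F V}
    {C T : Finset ι} (hW : W = span F (v '' (C : Set ι))) (hC : IsCirc F v C)
    (hdisj : Disjoint C T) (hT : IsCirc F (fun i => W.mkQ (v i)) T) {x y : ι} (hx : x ∈ T)
    (hy : y ∉ T) (hyC : y ∉ C) {β : F} (hβ : β ≠ 0) (hyx : v y - β • v x ∈ W)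
    (hne : v y - β • v x ≠ 0) :
    (∃ T2 ⊆ C, C.card ≤ 2 * T2.card ∧ IsCirc F v (T ∪ T2)) ∨
      ∃ T2 ⊆ C, C.card ≤ 2 * T2.card ∧ IsCirc F v (insert y (T.erase x) ∪ T2) := by
  subst hW
  exact circ_swap hC hdisj hT hx hy hyC hβ hyx hne

/-- The weighted linear bound. -/
theorem weighted (c : ℕ) : ∀ (n : ℕ) {V : Type u} [AddCommGroup V] [Module F V]
    [FiniteDimensional F V] (v : ι → V) (S M : Finset ι), Module.finrank F V = n → M ⊆ S →
    (∀ i ∈ S, v i ≠ 0) → (∀ i ∈ S, ∀ j ∈ S, i ≠ j → v i ∉ span F {v j}) →
    (∀ T ⊆ S, IsCirc F v T → T.card ≤ c) →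
    (∀ x ∈ M, ∀ T ⊆ S, x ∈ T → IsCirc F v T → 2 * T.card ≤ c) →
    ∑ i ∈ S, (if i ∈ M then Fintype.card F ^ (c + 1) else 1) ≤
      Fintype.card F ^ ((c + 1) ^ 2) * n := by
  classical
  have hq : 1 ≤ Fintype.card F := Fintype.card_pos
  have hw : ∀ (k : ℕ) (S M : Finset ι), ∑ i ∈ S, (if i ∈ M then Fintype.card F ^ (k + 1) else 1) ≤
      Fintype.card F ^ (k + 1) * S.card := by
    intro k S M
    rw [mul_comm, ← smul_eq_mul]
    apply sum_le_card_nsmul
    intro i _
    split_ifs
    · exact le_rfl
    · exact Nat.one_le_pow _ _ hq
  induction c with
  | zero =>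
    intro n V _ _ _ v S M hn _ _ _ hcirc _
    have h1 : S.card ≤ n := by
      rw [← hn]
      apply card_le_of_no_circ (F := F) (v := v)
      intro T hT hc
      have h2 := hcirc T hT hc
      obtain ⟨_, _, hne, _⟩ := hc
      have := hne.card_pos
      omega
    refine (hw 0 S M).trans ?_
    simpa using Nat.mul_le_mul_left (Fintype.card F) h1
  | succ c ihc =>
    intro n
    induction n using Nat.strong_induction_on with
    | _ n ihn =>
    intro V _ _ _ v S M hn hMS hnz hsimple hcirc hmark
    by_cases hex : ∃ C ⊆ S, IsCirc F v C ∧ C.card = c + 1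
    · obtain ⟨C, hCS, hC, hCc⟩ := hex
      obtain ⟨W, hW⟩ : ∃ W, W = span F (v '' (C : Set ι)) := ⟨_, rfl⟩
      have hinj : ∀ i ∈ S, ∀ j ∈ S, v i = v j → i = j := by
        intro i hi j hj h
        by_contra hne
        exact hsimple i hi j hj hne (by rw [h]; exact mem_span_singleton_self _)
      have hCW : ∀ i ∈ C, v i ∈ W := by
        intro i hi
        rw [hW]
        exact subset_span ⟨i, hi, rfl⟩
      -- marked elements are not in `W`
      have h1 : ∀ x ∈ M, v x ∉ W := by
        intro x hx hxW
        by_cases hxC : x ∈ C
        · have := hmark x hx C hCS hxC hC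
          omega
        · obtain ⟨T, hT, hcard, hc'⟩ := key hC (D := {x}) (α := fun _ => (1 : F))
            (by simpa using hxC) (singleton_nonempty _) (fun _ _ => one_ne_zero)
            (by rw [sum_singleton, one_smul, ← hW]; exact hxW)
            (by rw [sum_singleton, one_smul]; exact hnz x (hMS hx))
            (by
              intro e _
              refine ⟨e x, fun i hi => ?_⟩
              rw [mem_singleton.1 hi, mul_one])
          have h2 := hmark x hx _ (union_subset (singleton_subset_iff.2 (hMS hx))
            (hT.trans hCS)) (mem_union_left _ (mem_singleton_self _)) hc'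
          rw [card_union_of_disjoint (disjoint_singleton_left.2 (fun h => hxC (hT h))),
            card_singleton] at h2
          omega
      obtain ⟨v', hv'⟩ : ∃ v' : ι → V ⧸ W, v' = fun i => W.mkQ (v i) := ⟨_, rfl⟩
      have hv'0 : ∀ i, v' i = 0 ↔ v i ∈ W := by
        intro i
        rw [hv']
        exact Submodule.Quotient.mk_eq_zero W
      obtain ⟨S0, hS0⟩ : ∃ S0, S0 = S.filter (fun i => v i ∉ W) := ⟨_, rfl⟩
      have hS0S : S0 ⊆ S := by rw [hS0]; exact filter_subset _ _
      have hS0W : ∀ i ∈ S0, v i ∉ W := by
        intro i hi
        rw [hS0, mem_filter] at hi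
        exact hi.2
      have hCS0 : Disjoint C S0 := by
        rw [disjoint_left]
        intro i hi hi'
        exact hS0W i hi' (hCW i hi)
      -- parallel elements modulo `W`
      have hpar : ∀ x ∈ S0, ∀ y ∈ S0, x ≠ y → span F {v' x} = span F {v' y} →
          ∃ β : F, β ≠ 0 ∧ v y - β • v x ∈ W ∧ v y - β • v x ≠ 0 := by
        intro x hx y hy hxy hspan
        have hmem : v' y ∈ span F {v' x} := by
          rw [hspan]
          exact mem_span_singleton_self _
        obtain ⟨β, hβ⟩ := mem_span_singleton.1 hmem
        refine ⟨β, ?_, ?_, ?_⟩
        · rintro rfl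
          rw [zero_smul] at hβ
          exact hS0W y hy ((hv'0 y).1 hβ.symm)
        · rw [hv'] at hβ
          dsimp only at hβ
          rw [← map_smul, ← sub_eq_zero, ← map_sub] at hβ
          have h3 : β • v x - v y ∈ W := (Submodule.Quotient.mk_eq_zero W).1 hβ
          have h4 := neg_mem h3
          rwa [neg_sub] at h4
        · intro h0
          apply hsimple y (hS0S hy) x (hS0S hx) hxy.symm
          rw [mem_span_singleton]
          exact ⟨β, (sub_eq_zero.1 h0).symm⟩
      have h2 : ∀ x ∈ S0, ∀ y ∈ S0, x ≠ y → span F {v' x} = span F {v' y} → x ∉ M := by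
        intro x hx y hy hxy hspan hxM
        obtain ⟨β, hβ, hW1, hne⟩ := hpar x hx y hy hxy hspan
        have hsum : ∀ e : ι → F, ∑ i ∈ ({x, y} : Finset ι), e i • v i = e x • v x + e y • v y :=
          fun e => sum_pair hxy
        obtain ⟨T, hT, hcard, hc'⟩ := key hC (D := {x, y})
          (α := fun i => if i = x then - β else 1)
          (by
            rw [disjoint_insert_right, disjoint_singleton_right]
            exact ⟨disjoint_right.1 hCS0 hx, disjoint_right.1 hCS0 hy⟩)
          (insert_nonempty _ _)
          (by
            intro i _
            split_ifs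
            · exact neg_ne_zero.2 hβ
            · exact one_ne_zero)
          (by
            rw [hsum, if_pos rfl, if_neg hxy.symm, ← hW, one_smul, neg_smul, neg_add_eq_sub]
            exact hW1)
          (by
            rw [hsum, if_pos rfl, if_neg hxy.symm, one_smul, neg_smul, neg_add_eq_sub]
            exact hne)
          (by
            intro e he
            rw [hsum, ← hW] at he
            have h3 : (e x + e y * β) • v x ∈ W := by
              have h4 := sub_mem he (smul_mem W (e y) hW1)
              have h5 : e x • v x + e y • v y - e y • (v y - β • v x) =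
                  (e x + e y * β) • v x := by
                rw [smul_sub, add_smul, mul_smul]
                abel
              rwa [h5] at h4
            have h4 : e x + e y * β = 0 := by
              by_contra hne0
              have h5 := smul_mem W (e x + e y * β)⁻¹ h3
              rw [smul_smul, inv_mul_cancel₀ hne0, one_smul] at h5
              exact hS0W x hx h5
            refine ⟨e y, fun i hi => ?_⟩
            rw [mem_insert, mem_singleton] at hi
            rcases hi with rfl | rfl
            · rw [if_pos rfl]
              linear_combination h4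
            · rw [if_neg hxy.symm, mul_one])
        have h3 := hmark x hxM _ (union_subset (by
            intro i hi
            rw [mem_insert, mem_singleton] at hi
            rcases hi with rfl | rfl
            · exact hS0S hx
            · exact hS0S hy) (hT.trans hCS)) (mem_union_left _ (mem_insert_self _ _)) hc'
        have hd : Disjoint ({x, y} : Finset ι) T := by
          rw [disjoint_insert_left, disjoint_singleton_left]
          exact ⟨fun h => disjoint_right.1 hCS0 hx (hT h),
            fun h => disjoint_right.1 hCS0 hy (hT h)⟩
        rw [card_union_of_disjoint hd, card_pair hxy] at h3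
        omega
      -- representatives of the parallel classes
      obtain ⟨ic, hic⟩ : C.Nonempty := by
        obtain ⟨_, _, hne, _⟩ := hC
        exact hne
      obtain ⟨rep, hrep⟩ : ∃ rep : Submodule F (V ⧸ W) → ι, ∀ L, (∃ j ∈ S0, span F {v' j} = L) →
          rep L ∈ S0 ∧ span F {v' (rep L)} = L := by
        refine ⟨fun L => if h : ∃ j ∈ S0, span F {v' j} = L then h.choose else ic, ?_⟩
        intro L h
        dsimp only
        rw [dif_pos h]
        exact h.choose_spec
      obtain ⟨ρ, hρ⟩ : ∃ ρ : ι → ι, ρ = fun i => rep (span F {v' i}) := ⟨_, rfl⟩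
      have hρ1 : ∀ i ∈ S0, ρ i ∈ S0 ∧ span F {v' (ρ i)} = span F {v' i} := by
        intro i hi
        rw [hρ]
        exact hrep _ ⟨i, hi, rfl⟩
      obtain ⟨S', hS'⟩ : ∃ S', S' = S0.image ρ := ⟨_, rfl⟩
      have hS'S0 : S' ⊆ S0 := by
        intro s hs
        rw [hS', mem_image] at hs
        obtain ⟨i, hi, rfl⟩ := hs
        exact (hρ1 i hi).1
      have hρS' : ∀ s ∈ S', ρ s = s := by
        intro s hs
        rw [hS', mem_image] at hs
        obtain ⟨i, hi, rfl⟩ := hs
        have h3 := (hρ1 i hi).2
        have h4 : ρ (ρ i) = rep (span F {v' (ρ i)}) := by rw [hρ]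
        rw [h4, h3, hρ]
      have hsimple' : ∀ i ∈ S', ∀ j ∈ S', i ≠ j → v' i ∉ span F {v' j} := by
        intro i hi j hj hij hmem
        apply hij
        have hspan : span F {v' i} = span F {v' j} := by
          obtain ⟨β, hβ⟩ := mem_span_singleton.1 hmem
          have hβ0 : β ≠ 0 := by
            rintro rfl
            rw [zero_smul] at hβ
            exact hS0W i (hS'S0 hi) ((hv'0 i).1 hβ.symm)
          rw [← hβ]
          exact span_singleton_smul_eq (isUnit_iff_ne_zero.2 hβ0) _
        rw [← hρS' i hi, ← hρS' j hj, hρ]
        dsimp only
        rw [hspan]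
      obtain ⟨M', hM'⟩ : ∃ M', M' = S'.filter (fun s => s ∈ M ∨ ∃ x ∈ S0, ρ x = s ∧ x ≠ s) :=
        ⟨_, rfl⟩
      -- the dimensions
      have hfin : Module.finrank F (V ⧸ W) + Module.finrank F W = n := by
        rw [← hn]
        exact Submodule.finrank_quotient_add_finrank W
      have hWpos : 1 ≤ Module.finrank F W := by
        have h3 : Nontrivial W := ⟨⟨v ic, hCW ic hic⟩, 0, fun h =>
          hnz ic (hCS hic) (congrArg Subtype.val h)⟩
        exact Module.finrank_pos
      have hIH := ihn (Module.finrank F (V ⧸ W)) (by omega) v' S' M' rfl
        (by rw [hM']; exact filter_subset _ _)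
        (by
          intro i hi h0
          exact hS0W i (hS'S0 hi) ((hv'0 i).1 h0))
        hsimple'
        (by
          intro T hT hTc
          have hd : Disjoint C T := hCS0.mono_right (hT.trans hS'S0)
          rw [hv'] at hTc
          rcases circ_quot' hW hC hd hTc with h3 | ⟨T2, hT2, hc2, h3⟩
          · exact hcirc T ((hT.trans hS'S0).trans hS0S) h3
          · have h4 := hcirc _ (union_subset ((hT.trans hS'S0).trans hS0S)
              (hT2.trans hCS)) h3
            rw [card_union_of_disjoint (hd.symm.mono_right hT2)] at h4
            omega)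
        (by
          intro s hs T hT hsT hTc
          have hd : Disjoint C T := hCS0.mono_right (hT.trans hS'S0)
          have hTS : T ⊆ S := (hT.trans hS'S0).trans hS0S
          rw [hv'] at hTc
          rw [hM', mem_filter] at hs
          rcases hs.2 with hsM | ⟨x, hx, hρx, hxs⟩
          · rcases circ_quot' hW hC hd hTc with h3 | ⟨T2, hT2, hc2, h3⟩
            · exact hmark s hsM T hTS hsT h3
            · have h4 := hcirc _ (union_subset hTS (hT2.trans hCS)) h3
              rw [card_union_of_disjoint (hd.symm.mono_right hT2)] at h4
              omega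
          · have hspan : span F {v' s} = span F {v' x} := by
              rw [← hρx]
              exact (hρ1 x hx).2
            obtain ⟨β, hβ, hW1, hne⟩ := hpar s (hS'S0 hs.1) x hx (fun h => hxs h.symm) hspan
            have hxT : x ∉ T := by
              intro h
              exact hxs ((hρS' x (hT h)).symm.trans hρx)
            have hxC : x ∉ C := disjoint_right.1 hCS0 hx
            have hTpos : 0 < T.card := card_pos.2 ⟨s, hsT⟩
            rcases circ_swap' hW hC hd hTc hsT hxT hxC hβ hW1 hne with
              ⟨T2, hT2, hc2, h3⟩ | ⟨T2, hT2, hc2, h3⟩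
            · have h4 := hcirc _ (union_subset hTS (hT2.trans hCS)) h3
              rw [card_union_of_disjoint (hd.symm.mono_right hT2)] at h4
              omega
            · have h4 := hcirc _ (union_subset (by
                intro i hi
                rw [mem_insert] at hi
                rcases hi with rfl | hi
                · exact hS0S hx
                · exact hTS (mem_of_mem_erase hi)) (hT2.trans hCS)) h3
              have hd2 : Disjoint (insert x (T.erase s)) T2 := by
                rw [disjoint_insert_left]
                exact ⟨fun h => hxC (hT2 h),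
                  (hd.symm.mono_right hT2).mono_left (erase_subset _ _)⟩
              rw [card_union_of_disjoint hd2, card_insert_of_notMem
                (fun h => hxT (mem_of_mem_erase h)), card_erase_of_mem hsT] at h4
              omega)
      -- the sums
      have hfib : ∑ i ∈ S0, (if i ∈ M then Fintype.card F ^ (c + 1 + 1) else 1) ≤
          ∑ s ∈ S', (if s ∈ M' then Fintype.card F ^ (c + 1 + 1) else 1) := by
        rw [← sum_fiberwise_of_maps_to (s := S0) (t := S') (g := ρ)
          (fun i hi => by rw [hS']; exact mem_image_of_mem ρ hi)]
        apply sum_le_sum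
        intro s hs
        have hsS0 := hS'S0 hs
        by_cases hex2 : ∃ x ∈ S0, ρ x = s ∧ x ≠ s
        · have hsM' : s ∈ M' := by
            rw [hM', mem_filter]
            exact ⟨hs, Or.inr hex2⟩
          rw [if_pos hsM']
          obtain ⟨x, hx, hρx, hxs⟩ := hex2
          have h3 : ∀ z ∈ S0.filter (fun i => ρ i = s), z ∉ M := by
            intro z hz
            rw [mem_filter] at hz
            have hzs : span F {v' z} = span F {v' s} := by
              rw [← hz.2]
              exact (hρ1 z hz.1).2.symm
            have hxs' : span F {v' x} = span F {v' s} := by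
              rw [← hρx]
              exact (hρ1 x hx).2.symm
            by_cases hzx : z = s
            · rw [hzx]
              exact h2 s hsS0 x hx (fun h => hxs h.symm) hxs'.symm
            · exact h2 z hz.1 s hsS0 hzx hzs
          rw [sum_congr rfl (fun z hz => if_neg (h3 z hz)), sum_const, smul_eq_mul, mul_one]
          apply card_in_span (v := v) (C := insert s C)
          · intro i hi j hj h
            rw [mem_filter] at hi hj
            exact hinj i (hS0S hi.1) j (hS0S hj.1) h
          · exact (card_insert_le _ _).trans (by omega)
          · intro z hz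
            rw [mem_filter] at hz
            have hspan : span F {v' s} = span F {v' z} := by
              rw [← hz.2]
              exact (hρ1 z hz.1).2
            by_cases hzs : s = z
            · rw [← hzs]
              exact subset_span ⟨s, by simp, rfl⟩
            · obtain ⟨β, _, hW1, _⟩ := hpar s hsS0 z hz.1 hzs hspan
              have h4 : v z = (v z - β • v s) + β • v s := by abel
              rw [h4]
              apply add_mem
              · rw [hW] at hW1
                refine span_mono (Set.image_mono ?_) hW1
                intro i hi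
                simp only [coe_insert, Set.mem_insert_iff]
                exact Or.inr hi
              · exact smul_mem _ _ (subset_span ⟨s, by simp, rfl⟩)
        · have hfs : S0.filter (fun i => ρ i = s) = {s} := by
            ext z
            rw [mem_filter, mem_singleton]
            constructor
            · rintro ⟨hz1, hz2⟩
              by_contra hne
              exact hex2 ⟨z, hz1, hz2, hne⟩
            · rintro rfl
              exact ⟨hsS0, hρS' z hs⟩
          rw [hfs, sum_singleton]
          by_cases hsM : s ∈ M
          · have hsM' : s ∈ M' := by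
              rw [hM', mem_filter]
              exact ⟨hs, Or.inl hsM⟩
            rw [if_pos hsM, if_pos hsM']
          · rw [if_neg hsM]
            split_ifs
            · exact Nat.one_le_pow _ _ hq
            · exact le_rfl
      have hSW : ∑ i ∈ S.filter (fun i => v i ∈ W),
          (if i ∈ M then Fintype.card F ^ (c + 1 + 1) else 1) ≤ Fintype.card F ^ (c + 1) := by
        rw [sum_congr rfl (fun z hz => if_neg (fun hzM => h1 z hzM (mem_filter.1 hz).2)),
          sum_const, smul_eq_mul, mul_one]
        apply card_in_span (v := v) (C := C)
        · intro i hi j hj h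
          rw [mem_filter] at hi hj
          exact hinj i hi.1 j hj.1 h
        · omega
        · intro i hi
          rw [← hW]
          exact (mem_filter.1 hi).2
      rw [← sum_filter_add_sum_filter_not S (fun i => v i ∈ W), ← hS0]
      have hpow : Fintype.card F ^ (c + 1) ≤ Fintype.card F ^ ((c + 1 + 1) ^ 2) :=
        Nat.pow_le_pow_right hq (by nlinarith)
      have hmul : Fintype.card F ^ ((c + 1 + 1) ^ 2) * Module.finrank F (V ⧸ W) +
          Fintype.card F ^ ((c + 1 + 1) ^ 2) ≤ Fintype.card F ^ ((c + 1 + 1) ^ 2) * n := by
        rw [← Nat.mul_succ]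
        exact Nat.mul_le_mul_left _ (by simp only [Nat.succ_eq_add_one]; omega)
      omega
    · push Not at hex
      have h1 := ihc n v S ∅ hn (empty_subset _) hnz hsimple (by
        intro T hT hc
        have h2 := hcirc T hT hc
        have h3 := hex T hT hc
        omega) (by simp)
      simp only [notMem_empty, if_false, sum_const, smul_eq_mul, mul_one] at h1
      refine (hw (c + 1) S M).trans ((Nat.mul_le_mul_left _ h1).trans ?_)
      rw [← mul_assoc, ← pow_add]
      apply Nat.mul_le_mul_right
      apply Nat.pow_le_pow_right hq
      nlinarith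

end

end Q10.Heller
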