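import Mathlib

/-!
# The quadratic lower bound for the shifted Heller constant
-/

set_option autoImplicit false

open Finset

namespace Q10.Heller

/-- Minors of a directed incidence matrix (a network matrix) are at most one in absolute value. -/
theorem net {ι : Type*} [DecidableEq ι] : ∀ (k : ℕ) (f : Fin k → ι) (_ : Function.Injective f)
    (p q : Fin k → ι),
    |(Matrix.of fun i j => (if f i = p j then (1 : ℝ) else 0) -
      (if f i = q j then (1 : ℝ) else 0)).det| ≤ 1 := by
  intro k
  induction k with
  | zero =>
    intro f _ p q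
    rw [Matrix.det_fin_zero]
    simp
  | succ k ih =>
    intro f hf p q
    obtain ⟨M, hM⟩ : ∃ M : Matrix (Fin (k + 1)) (Fin (k + 1)) ℝ, M = Matrix.of fun i j =>
      (if f i = p j then (1 : ℝ) else 0) - (if f i = q j then (1 : ℝ) else 0) := ⟨_, rfl⟩
    rw [← hM]
    by_cases h : ∀ j, (∃ i, f i = p j) ∧ (∃ i, f i = q j)
    · have h1 : M.det = 0 := by
        rw [← Matrix.exists_vecMul_eq_zero_iff]
        refine ⟨fun _ => 1, ?_, ?_⟩
        · intro h2
          have := congrFun h2 0
          simp at this
        · funext j
          obtain ⟨⟨a, ha⟩, b, hb⟩ := h j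
          rw [Matrix.vecMul, dotProduct, hM]
          simp only [one_mul, Matrix.of_apply, Pi.zero_apply]
          rw [sum_sub_distrib, ← ha, ← hb]
          simp only [hf.eq_iff]
          simp
      rw [h1]
      simp
    · push Not at h
      obtain ⟨j, hj⟩ := h
      have h1 : ∃ r, ∀ i, |M i j| = if f i = r then (1 : ℝ) else 0 := by
        by_cases h2 : ∃ i, f i = p j
        · refine ⟨p j, ?_⟩
          intro i
          rw [hM, Matrix.of_apply, if_neg (hj h2 i)]
          split_ifs <;> simp
        · refine ⟨q j, ?_⟩
          intro i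
          rw [hM, Matrix.of_apply, if_neg (fun h3 => h2 ⟨i, h3⟩)]
          split_ifs <;> simp
      obtain ⟨r, hr⟩ := h1
      rw [Matrix.det_succ_column M j]
      refine (abs_sum_le_sum_abs _ _).trans ?_
      have h3 : ∀ i ∈ (univ : Finset (Fin (k + 1))),
          |(-1 : ℝ) ^ ((i : ℕ) + (j : ℕ)) * M i j *
            (M.submatrix i.succAbove j.succAbove).det| ≤ if f i = r then (1 : ℝ) else 0 := by
        intro i _
        rw [abs_mul, abs_mul, abs_pow, abs_neg, abs_one, one_pow, one_mul, ← hr i]
        have h4 := ih (f ∘ i.succAbove) (hf.comp Fin.succAbove_right_injective)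
          (p ∘ j.succAbove) (q ∘ j.succAbove)
        have h5 : M.submatrix i.succAbove j.succAbove = Matrix.of fun a b =>
            (if (f ∘ i.succAbove) a = (p ∘ j.succAbove) b then (1 : ℝ) else 0) -
              (if (f ∘ i.succAbove) a = (q ∘ j.succAbove) b then (1 : ℝ) else 0) := by
          ext a b
          rw [hM]
          rfl
        rw [h5]
        exact mul_le_of_le_one_right (abs_nonneg _) h4
      refine (sum_le_sum h3).trans ?_
      by_cases h4 : ∃ i, f i = r
      · obtain ⟨i, rfl⟩ := h4
        simp only [hf.eq_iff]
        simp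
      · push Not at h4
        rw [sum_eq_zero (fun i _ => if_neg (h4 i))]
        exact zero_le_one

end Q10.Heller
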