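import Pool.Agent.Q10.Heller.Kung

/-!
# A quadratic bound for integer matrices with bounded minors
-/

set_option autoImplicit false

open Finset Submodule

namespace Q10.Heller

/-- All minors of the matrix whose columns are the elements of `A` are at most `Δ` in absolute
value. -/
def Sub (Δ : ℤ) {m : ℕ} (A : Finset (Fin m → ℤ)) : Prop :=
  ∀ (k : ℕ) (f : Fin k → Fin m) (g : Fin k → (Fin m → ℤ)), (∀ j, g j ∈ A) →
    |(Matrix.of fun i j => g j (f i)).det| ≤ Δ

/-- Linearly independent vectors have a nonzero maximal minor. -/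
theorem exists_rows {F : Type*} [Field F] {k m : ℕ} {w : Fin k → (Fin m → F)}
    (hw : LinearIndependent F w) :
    ∃ f : Fin k → Fin m, (Matrix.of fun i j => w j (f i)).det ≠ 0 := by
  have h1 : (Matrix.of w).rank = k := by
    have h2 := LinearIndependent.rank_matrix (M := Matrix.of w) hw
    simpa using h2
  have h2 : Module.finrank F (span F (Set.range (Matrix.of w).transpose.row)) = k := by
    rw [← Matrix.rank_eq_finrank_span_row, Matrix.rank_transpose, h1]
  have h3 := exists_fun_fin_finrank_span_eq F (Set.range (Matrix.of w).transpose.row)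
  rw [h2] at h3
  obtain ⟨g, hg, _, hli⟩ := h3
  choose f hf using hg
  refine ⟨f, ?_⟩
  have h4 : (Matrix.of fun i j => w j (f i)) = Matrix.of g := by
    ext i j
    rw [Matrix.of_apply, Matrix.of_apply, ← hf i]
    rfl
  rw [h4]
  have h5 : IsUnit (Matrix.of g) := (Matrix.linearIndependent_rows_iff_isUnit).1 hli
  exact ((Matrix.isUnit_iff_isUnit_det _).1 h5).ne_zero

theorem expand {R : Type*} [CommRing R] {k m : ℕ} (f : Fin k → Fin m) (x : Fin (k + 1) → Fin m → R)
    (b : Fin (k + 1) → R) :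
    (Matrix.of (Fin.cons b (fun i j => x j (f i)) : Fin (k + 1) → Fin (k + 1) → R)).det =
      ∑ j : Fin (k + 1), (-1) ^ (j : ℕ) * b j * (Matrix.of fun (i l : Fin k) => x (j.succAbove l) (f i)).det := by
  rw [Matrix.det_succ_row_zero]
  rfl

/-- Circuits of the columns with two lifts are short. -/
theorem circ_le {Δ p : ℕ} [Fact p.Prime] {m : ℕ}
    {A : Finset (Fin (m + 1) → ℤ)} (hA : Sub Δ A) {T : Finset (Fin m → ℤ)}
    (hT : ∀ y ∈ T, ∃ a a' : ℤ, a ≠ a' ∧ (Fin.cons a y : Fin (m + 1) → ℤ) ∈ A ∧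
      (Fin.cons a' y : Fin (m + 1) → ℤ) ∈ A)
    (hc : IsCirc (ZMod p) (fun (y : Fin m → ℤ) (i : Fin m) => ((y i : ℤ) : ZMod p)) T) :
    T.card ≤ 2 * Δ := by
  classical
  obtain ⟨γ, hγ, hne, h0, hu⟩ := hc
  obtain ⟨k, hk⟩ : ∃ k, T.card = k + 1 := ⟨T.card - 1, by have := hne.card_pos; omega⟩
  obtain ⟨y, hyT, hyinj, hyimg⟩ : ∃ y : Fin (k + 1) → (Fin m → ℤ), (∀ j, y j ∈ T) ∧
      Function.Injective y ∧ T = univ.image y := by
    refine ⟨fun j => ((T.equivFinOfCardEq hk).symm j : T), fun j => Subtype.property _,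
      fun i j hij => (T.equivFinOfCardEq hk).symm.injective (Subtype.ext hij), ?_⟩
    ext z
    simp only [mem_image, mem_univ, true_and]
    constructor
    · intro hz
      exact ⟨T.equivFinOfCardEq hk ⟨z, hz⟩, by simp⟩
    · rintro ⟨j, rfl⟩
      exact Subtype.property _
  obtain ⟨u, hu'⟩ : ∃ u : (Fin m → ℤ) → (Fin m → ZMod p),
    u = fun (y : Fin m → ℤ) (i : Fin m) => ((y i : ℤ) : ZMod p) := ⟨_, rfl⟩
  rw [← hu'] at h0 hu
  have hsum : ∀ e : (Fin m → ℤ) → ZMod p, ∑ z ∈ T, e z • u z = ∑ j, e (y j) • u (y j) := by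
    intro e
    rw [hyimg, sum_image (fun i _ j _ h => hyinj h)]
  have hrel : ∀ e : Fin (k + 1) → ZMod p, ∑ j, e j • u (y j) = 0 →
      ∃ τ : ZMod p, ∀ j, e j = τ * γ (y j) := by
    intro e he
    have hinv : ∀ j, Function.invFun y (y j) = j := Function.leftInverse_invFun hyinj
    obtain ⟨τ, hτ⟩ := hu (fun z => e (Function.invFun y z)) (by
      rw [hsum]
      simp only [hinv]
      exact he)
    refine ⟨τ, fun j => ?_⟩
    have := hτ (y j) (hyT j)
    rwa [hinv] at this
  have hli : LinearIndependent (ZMod p) (fun l : Fin k => u (y l.succ)) := by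
    rw [Fintype.linearIndependent_iff]
    intro g hg l
    obtain ⟨τ, hτ⟩ := hrel (Fin.cons 0 g) (by
      rw [Fin.sum_univ_succ]
      simp only [Fin.cons_zero, Fin.cons_succ, zero_smul, zero_add]
      exact hg)
    have h1 := hτ 0
    rw [Fin.cons_zero] at h1
    have h2 : τ = 0 := (mul_eq_zero.1 h1.symm).resolve_right (hγ _ (hyT 0))
    have h3 := hτ l.succ
    rw [Fin.cons_succ, h2, zero_mul] at h3
    exact h3
  obtain ⟨f, hf⟩ := exists_rows hli
  -- the minors
  obtain ⟨lam, hlam⟩ : ∃ lam : Fin (k + 1) → ℤ, lam = fun j =>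
    (Matrix.of fun (i l : Fin k) => y (j.succAbove l) (f i)).det := ⟨_, rfl⟩
  obtain ⟨mu, hmu⟩ : ∃ mu : Fin (k + 1) → ZMod p, mu = fun j =>
    (Matrix.of fun (i l : Fin k) => u (y (j.succAbove l)) (f i)).det := ⟨_, rfl⟩
  have hcast : ∀ j, ((lam j : ℤ) : ZMod p) = mu j := by
    intro j
    rw [hlam, hmu]
    dsimp only
    rw [Int.cast_det]
    congr 1
    ext i l
    rw [hu']
    rfl
  have hz : ∀ i : Fin k, ∑ j : Fin (k + 1), ((-1) ^ (j : ℕ) * mu j) * u (y j) (f i) = 0 := by
    intro i
    have h1 := expand f (fun j => u (y j)) (fun j => u (y j) (f i))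
    rw [Matrix.det_zero_of_row_eq (Fin.succ_ne_zero i) (by
      funext j
      simp)] at h1
    rw [h1, hmu]
    apply sum_congr rfl
    intro j _
    ring
  have hmu0 : mu 0 ≠ 0 := by
    rw [hmu]
    dsimp only
    simpa using hf
  have hγ0 := hγ (y 0) (hyT 0)
  -- all minors are nonzero
  have hmune : ∀ j, mu j ≠ 0 := by
    obtain ⟨z', hz'⟩ : ∃ z' : Fin (k + 1) → ZMod p, z' = fun j : Fin (k + 1) =>
      (-1) ^ (j : ℕ) * mu j - mu 0 / γ (y 0) * γ (y j) := ⟨_, rfl⟩
    have hz'0 : z' 0 = 0 := by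
      rw [hz']
      dsimp only
      rw [div_mul_cancel₀ _ hγ0]
      simp
    have hrelγ : ∀ i : Fin k, ∑ j, γ (y j) * u (y j) (f i) = 0 := by
      intro i
      rw [hsum] at h0
      have h1 := congrFun h0 (f i)
      simpa [Finset.sum_apply] using h1
    have hz's : ∀ i : Fin k, ∑ j, z' j * u (y j) (f i) = 0 := by
      intro i
      rw [hz']
      simp only [sub_mul, sum_sub_distrib]
      rw [hz i, zero_sub, neg_eq_zero]
      have h1 : ∑ j, mu 0 / γ (y 0) * γ (y j) * u (y j) (f i) =
          mu 0 / γ (y 0) * ∑ j, γ (y j) * u (y j) (f i) := by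
        rw [mul_sum]
        exact sum_congr rfl (fun j _ => by ring)
      rw [h1, hrelγ i, mul_zero]
    have hz'succ : (fun l : Fin k => z' l.succ) = 0 := by
      apply Matrix.eq_zero_of_mulVec_eq_zero hf
      funext i
      have h1 := hz's i
      rw [Fin.sum_univ_succ, hz'0, zero_mul, zero_add] at h1
      simp only [Matrix.mulVec, dotProduct, Matrix.of_apply, Pi.zero_apply]
      rw [← h1]
      exact sum_congr rfl (fun l _ => by ring)
    intro j hj
    have h1 : z' j = 0 := by
      rcases Fin.eq_zero_or_eq_succ j with rfl | ⟨l, rfl⟩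
      · exact hz'0
      · exact congrFun hz'succ l
    rw [hz'] at h1
    dsimp only at h1
    rw [hj, mul_zero, zero_sub, neg_eq_zero] at h1
    exact mul_ne_zero (div_ne_zero hmu0 hγ0) (hγ _ (hyT j)) h1
  have hlamne : ∀ j, lam j ≠ 0 := by
    intro j hj
    apply hmune j
    rw [← hcast, hj, Int.cast_zero]
  -- the bound for every choice of labels
  have hbound : ∀ a : Fin (k + 1) → ℤ, (∀ j, (Fin.cons (a j) (y j) : Fin (m + 1) → ℤ) ∈ A) →
      |∑ j : Fin (k + 1), (-1) ^ (j : ℕ) * a j * lam j| ≤ Δ := by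
    intro a ha
    have h1 := hA (k + 1) (Fin.cons 0 (fun i => (f i).succ)) (fun j => Fin.cons (a j) (y j)) ha
    have h2 := expand f y a
    rw [hlam]
    dsimp only
    rw [← h2]
    convert h1 using 3
    ext i j
    refine Fin.cases ?_ (fun i => ?_) i
    · simp
    · simp
  -- choose the labels
  have hlab : ∀ j, ∃ hi lo : ℤ, (Fin.cons hi (y j) : Fin (m + 1) → ℤ) ∈ A ∧
      (Fin.cons lo (y j) : Fin (m + 1) → ℤ) ∈ A ∧
      1 ≤ (-1) ^ (j : ℕ) * hi * lam j - (-1) ^ (j : ℕ) * lo * lam j := by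
    intro j
    obtain ⟨a, a', haa, h1, h2⟩ := hT (y j) (hyT j)
    have h3 : (-1) ^ (j : ℕ) * a * lam j - (-1) ^ (j : ℕ) * a' * lam j ≠ 0 := by
      have h4 : (-1) ^ (j : ℕ) * a * lam j - (-1) ^ (j : ℕ) * a' * lam j =
          (-1) ^ (j : ℕ) * (a - a') * lam j := by ring
      rw [h4]
      exact mul_ne_zero (mul_ne_zero (pow_ne_zero _ (by norm_num)) (sub_ne_zero.2 haa)) (hlamne j)
    rcases lt_or_gt_of_ne h3 with h4 | h4
    · exact ⟨a', a, h2, h1, by omega⟩
    · exact ⟨a, a', h1, h2, by omega⟩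
  choose hi lo h1 h2 h3 using hlab
  have h4 := hbound hi h1
  have h5 := hbound lo h2
  have h6 : ((k : ℤ) + 1) ≤ ∑ j : Fin (k + 1), (-1) ^ (j : ℕ) * hi j * lam j -
      ∑ j : Fin (k + 1), (-1) ^ (j : ℕ) * lo j * lam j := by
    rw [← sum_sub_distrib]
    have h7 : ∑ _j : Fin (k + 1), (1 : ℤ) ≤ ∑ j : Fin (k + 1), ((-1) ^ (j : ℕ) * hi j * lam j -
      (-1) ^ (j : ℕ) * lo j * lam j) := sum_le_sum (fun j _ => h3 j)
    simpa using h7
  rw [abs_le] at h4 h5
  rw [hk]
  omega

/-- The linear bound without the assumption that the vectors are pairwise non-parallel. -/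
theorem linear_bound {F : Type} [Field F] [Fintype F] {ι : Type*} [DecidableEq ι] {m : ℕ}
    (u : ι → (Fin m → F)) (X : Finset ι) (c : ℕ) (hinj : ∀ i ∈ X, ∀ j ∈ X, u i = u j → i = j)
    (hcirc : ∀ T ⊆ X, IsCirc F u T → T.card ≤ c) :
    X.card ≤ 1 + Fintype.card F * (Fintype.card F ^ ((c + 1) ^ 2) * m) := by
  classical
  obtain ⟨X0, hX0⟩ : ∃ X0, X0 = X.filter (fun i => u i ≠ 0) := ⟨_, rfl⟩
  have hX0X : X0 ⊆ X := by rw [hX0]; exact filter_subset _ _
  have hnz : ∀ i ∈ X0, u i ≠ 0 := by
    intro i hi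
    rw [hX0, mem_filter] at hi
    exact hi.2
  have hcard : X.card ≤ 1 + X0.card := by
    rw [← card_filter_add_card_filter_not (s := X) (fun i => u i = 0), hX0]
    apply Nat.add_le_add_right
    rw [card_le_one]
    intro i hi j hj
    rw [mem_filter] at hi hj
    exact hinj i hi.1 j hj.1 (by rw [hi.2, hj.2])
  by_cases hemp : X0 = ∅
  · rw [hemp, card_empty] at hcard
    omega
  obtain ⟨i0, hi0⟩ := nonempty_iff_ne_empty.2 hemp
  obtain ⟨rep, hrep⟩ : ∃ rep : Submodule F (Fin m → F) → ι, ∀ L,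
      (∃ j ∈ X0, span F {u j} = L) → rep L ∈ X0 ∧ span F {u (rep L)} = L := by
    refine ⟨fun L => if h : ∃ j ∈ X0, span F {u j} = L then h.choose else i0, ?_⟩
    intro L h
    dsimp only
    rw [dif_pos h]
    exact h.choose_spec
  obtain ⟨ρ, hρ⟩ : ∃ ρ : ι → ι, ρ = fun i => rep (span F {u i}) := ⟨_, rfl⟩
  have hρ1 : ∀ i ∈ X0, ρ i ∈ X0 ∧ span F {u (ρ i)} = span F {u i} := by
    intro i hi
    rw [hρ]
    exact hrep _ ⟨i, hi, rfl⟩
  obtain ⟨S, hS⟩ : ∃ S, S = X0.image ρ := ⟨_, rfl⟩
  have hSX0 : S ⊆ X0 := by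
    intro s hs
    rw [hS, mem_image] at hs
    obtain ⟨i, hi, rfl⟩ := hs
    exact (hρ1 i hi).1
  have hρS : ∀ s ∈ S, ρ s = s := by
    intro s hs
    rw [hS, mem_image] at hs
    obtain ⟨i, hi, rfl⟩ := hs
    have h3 := (hρ1 i hi).2
    have h4 : ρ (ρ i) = rep (span F {u (ρ i)}) := by rw [hρ]
    rw [h4, h3, hρ]
  have hsimple : ∀ i ∈ S, ∀ j ∈ S, i ≠ j → u i ∉ span F {u j} := by
    intro i hi j hj hij hmem
    apply hij
    have hspan : span F {u i} = span F {u j} := by
      obtain ⟨β, hβ⟩ := mem_span_singleton.1 hmem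
      have hβ0 : β ≠ 0 := by
        rintro rfl
        rw [zero_smul] at hβ
        exact hnz i (hSX0 hi) hβ.symm
      rw [← hβ]
      exact span_singleton_smul_eq (isUnit_iff_ne_zero.2 hβ0) _
    rw [← hρS i hi, ← hρS j hj, hρ]
    dsimp only
    rw [hspan]
  have h1 := weighted (F := F) c m u S ∅ (by simp) (empty_subset _)
    (fun i hi => hnz i (hSX0 hi)) hsimple
    (fun T hT hc => hcirc T ((hT.trans hSX0).trans hX0X) hc) (by simp)
  simp only [notMem_empty, if_false, sum_const, smul_eq_mul, mul_one] at h1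
  have h2 : X0.card ≤ Fintype.card F * S.card := by
    rw [hS]
    apply card_le_mul_card_image
    intro s hs
    rw [← pow_one (Fintype.card F)]
    apply card_in_span (v := u) (C := {s})
    · intro i hi j hj h
      rw [mem_filter] at hi hj
      exact hinj i (hX0X hi.1) j (hX0X hj.1) h
    · simp
    · intro z hz
      rw [mem_filter] at hz
      rw [coe_singleton, Set.image_singleton, ← hz.2, (hρ1 z hz.1).2]
      exact mem_span_singleton_self _
  exact hcard.trans (Nat.add_le_add_left (h2.trans (Nat.mul_le_mul_left _ h1)) _)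

/-- **Quadratic bound**: an integer matrix with `m` rows, distinct columns and all minors at most
`Δ` in absolute value has at most `1 + C m ^ 2` columns. -/
theorem quad (Δ : ℕ) : ∃ C : ℕ, ∀ (m : ℕ) (A : Finset (Fin m → ℤ)), Sub Δ A →
    A.card ≤ 1 + C * m ^ 2 := by
  classical
  obtain ⟨p, hpge, hpp⟩ := Nat.exists_infinite_primes (2 * Δ + 1)
  haveI : Fact p.Prime := ⟨hpp⟩
  obtain ⟨K, hK⟩ : ∃ K, K = p * p ^ ((2 * Δ + 1) ^ 2) := ⟨_, rfl⟩
  refine ⟨2 * Δ * (1 + K), ?_⟩
  intro m
  induction m with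
  | zero =>
    intro A _
    have h1 : A.card ≤ 1 := by
      rw [card_le_one]
      intro a _ b _
      exact Subsingleton.elim a b
    omega
  | succ m ih =>
    intro A hA
    -- entries
    have hent : ∀ x ∈ A, ∀ i, |x i| ≤ Δ := by
      intro x hx i
      have h1 := hA 1 (fun _ => i) (fun _ => x) (fun _ => hx)
      rw [Matrix.det_unique] at h1
      simpa using h1
    -- the projection
    obtain ⟨B, hB⟩ : ∃ B : Finset (Fin m → ℤ), B = A.image Fin.tail := ⟨_, rfl⟩
    have hcons : ∀ x : Fin (m + 1) → ℤ, (Fin.cons (x 0) (Fin.tail x) : Fin (m + 1) → ℤ) = x :=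
      fun x => Fin.cons_self_tail x
    have hBsub : Sub Δ B := by
      intro k f g hg
      have h1 : ∀ j, ∃ x ∈ A, Fin.tail x = g j := by
        intro j
        have h2 := hg j
        rw [hB, mem_image] at h2
        exact h2
      choose x hx hxg using h1
      have h2 := hA k (fun i => (f i).succ) x hx
      convert h2 using 3
      ext i j
      rw [Matrix.of_apply, Matrix.of_apply, ← hxg j]
      rfl
    have hBcard := ih B hBsub
    obtain ⟨X, hX⟩ : ∃ X, X = B.filter (fun y => ∃ a a' : ℤ, a ≠ a' ∧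
      (Fin.cons a y : Fin (m + 1) → ℤ) ∈ A ∧ (Fin.cons a' y : Fin (m + 1) → ℤ) ∈ A) := ⟨_, rfl⟩
    -- the size of X
    have hXcard : X.card ≤ 1 + K * m := by
      have h1 := linear_bound (F := ZMod p)
        (fun (y : Fin m → ℤ) (i : Fin m) => ((y i : ℤ) : ZMod p)) X (2 * Δ)
        (by
          intro y hy y' hy' h
          rw [hX, mem_filter] at hy hy'
          obtain ⟨_, a, _, _, h2, _⟩ := hy
          obtain ⟨_, b, _, _, h3, _⟩ := hy'
          funext i
          have h4 := hent _ h2 i.succ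
          have h5 := hent _ h3 i.succ
          rw [Fin.cons_succ] at h4 h5
          have h6 := congrFun h i
          rw [← sub_eq_zero, ← Int.cast_sub, ZMod.intCast_zmod_eq_zero_iff_dvd] at h6
          have h7 : y i - y' i = 0 := by
            apply Int.eq_zero_of_abs_lt_dvd h6
            rw [abs_lt]
            rw [abs_le] at h4 h5
            have h8 : ((2 * Δ + 1 : ℕ) : ℤ) ≤ p := by exact_mod_cast hpge
            push_cast at h8
            constructor <;> omega
          omega)
        (by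
          intro T hT hc
          apply circ_le hA _ hc
          intro y hy
          have h2 := hT hy
          rw [hX, mem_filter] at h2
          exact h2.2)
      rw [ZMod.card, ← mul_assoc, ← hK] at h1
      exact h1
    -- the fibers
    have hfib : A.card ≤ B.card + 2 * Δ * X.card := by
      have h1 : A.card = ∑ y ∈ B, (A.filter (fun x => Fin.tail x = y)).card := by
        rw [hB]
        exact card_eq_sum_card_image _ _
      have h2 : ∀ y ∈ B, (A.filter (fun x => Fin.tail x = y)).card ≤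
          1 + if y ∈ X then 2 * Δ else 0 := by
        intro y hy
        split_ifs with hyX
        · have h3 : (A.filter (fun x => Fin.tail x = y)).card ≤
              (Finset.Icc (-(Δ : ℤ)) Δ).card := by
            apply card_le_card_of_injOn (fun x => x 0)
            · intro x hx
              have hx' := mem_filter.1 hx
              have h4 := abs_le.1 (hent x hx'.1 0)
              simp only [coe_Icc, Set.mem_Icc]
              exact h4
            · intro x hx x' hx' h
              have h4 := (mem_filter.1 hx).2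
              have h5 := (mem_filter.1 hx').2
              dsimp only at h
              rw [← hcons x, ← hcons x', h, h4, h5]
          rw [Int.card_Icc] at h3
          omega
        · rw [add_zero, card_le_one]
          intro x hx x' hx'
          have h4 := mem_filter.1 hx
          have h5 := mem_filter.1 hx'
          by_contra hne
          apply hyX
          rw [hX, mem_filter]
          refine ⟨hy, x 0, x' 0, ?_, ?_, ?_⟩
          · intro h
            apply hne
            rw [← hcons x, ← hcons x', h, h4.2, h5.2]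
          · rw [← h4.2, hcons]
            exact h4.1
          · rw [← h5.2, hcons]
            exact h5.1
      rw [h1]
      refine (sum_le_sum h2).trans ?_
      rw [sum_add_distrib, sum_const, smul_eq_mul, mul_one, ← sum_filter]
      have h3 : B.filter (fun y => y ∈ X) ⊆ X := by
        intro y hy
        exact (mem_filter.1 hy).2
      have h4 := card_le_card h3
      rw [sum_const, smul_eq_mul, mul_comm]
      exact Nat.add_le_add_left (Nat.mul_le_mul_left _ h4) _
    calc A.card ≤ B.card + 2 * Δ * X.card := hfib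
      _ ≤ (1 + 2 * Δ * (1 + K) * m ^ 2) + 2 * Δ * (1 + K * m) :=
        Nat.add_le_add hBcard (Nat.mul_le_mul_left _ hXcard)
      _ ≤ 1 + 2 * Δ * (1 + K) * (m + 1) ^ 2 := by
        have h0 : 1 + K * m ≤ (1 + K) * (2 * m + 1) := by
          nlinarith [Nat.zero_le (K * m), Nat.zero_le K, Nat.zero_le m]
        have h1 : 2 * Δ * (1 + K * m) ≤ 2 * Δ * ((1 + K) * (2 * m + 1)) :=
          Nat.mul_le_mul_left _ h0
        calc (1 + 2 * Δ * (1 + K) * m ^ 2) + 2 * Δ * (1 + K * m)
            ≤ (1 + 2 * Δ * (1 + K) * m ^ 2) + 2 * Δ * ((1 + K) * (2 * m + 1)) :=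
              Nat.add_le_add_left h1 _
          _ = 1 + 2 * Δ * (1 + K) * (m + 1) ^ 2 := by ring

end Q10.Heller
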