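import Pool.Agent.Q10.Heller.Quad

/-!
# The quadratic upper bound for the shifted Heller constant
-/

set_option autoImplicit false

open Finset

namespace Q10.Heller

/-- All minors of the matrix whose columns are the `t + x` with `x ∈ A` are at most `1` in absolute
value. -/
def SubR {m : ℕ} (t : Fin m → ℝ) (A : Finset (Fin m → ℤ)) : Prop :=
  ∀ (k : ℕ) (f : Fin k → Fin m) (g : Fin k → (Fin m → ℤ)), (∀ j, g j ∈ A) →
    |(Matrix.of fun i j => t (f i) + (g j (f i) : ℝ)).det| ≤ 1

theorem diff_sub {m : ℕ} {t : Fin m → ℝ} {A : Finset (Fin m → ℤ)} (hA : SubR t A) {i0 : Fin m}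
    {s : ℤ} (hs : ∀ x ∈ A, x i0 = s) {c0 : Fin m → ℤ} (hc0 : c0 ∈ A)
    (hτ : 1 / 20 ≤ |t i0 + s|) : Sub 20 (A.image (fun x => x - c0)) := by
  intro k f g hg
  have h1 : ∀ j, ∃ x ∈ A, x - c0 = g j := fun j => mem_image.1 (hg j)
  choose x hx hxg using h1
  obtain ⟨M, hM⟩ : ∃ M : Matrix (Fin (k + 1)) (Fin (k + 1)) ℝ, M = Matrix.of fun i j =>
    t ((Fin.cons i0 f : Fin (k + 1) → Fin m) i) +
      (((Fin.cons c0 x : Fin (k + 1) → (Fin m → ℤ)) j
        ((Fin.cons i0 f : Fin (k + 1) → Fin m) i) : ℤ) : ℝ) := ⟨_, rfl⟩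
  have h2 : |M.det| ≤ 1 := by
    rw [hM]
    apply hA
    intro j
    refine Fin.cases ?_ ?_ j
    · exact hc0
    · intro j
      exact hx j
  obtain ⟨M', hM'⟩ : ∃ M' : Matrix (Fin (k + 1)) (Fin (k + 1)) ℝ, M' = Matrix.of fun i j =>
    M i j + (if j = 0 then 0 else -1) * M i 0 := ⟨_, rfl⟩
  have h3 : M'.det = M.det := by
    rw [← Matrix.det_transpose M', ← Matrix.det_transpose M]
    apply Matrix.det_eq_of_forall_row_eq_smul_add_const
      (fun j : Fin (k + 1) => if j = 0 then (0 : ℝ) else -1) 0 (by simp)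
    intro i j
    rw [Matrix.transpose_apply, Matrix.transpose_apply, Matrix.transpose_apply, hM',
      Matrix.of_apply]
  have h4 : M'.det = (t i0 + s) * (((Matrix.of fun i j => g j (f i)).det : ℤ) : ℝ) := by
    rw [Matrix.det_succ_row_zero, Fin.sum_univ_succ]
    have h5 : ∀ j : Fin k, M' 0 j.succ = 0 := by
      intro j
      rw [hM', Matrix.of_apply, if_neg (Fin.succ_ne_zero j), hM, Matrix.of_apply, Matrix.of_apply]
      simp only [Fin.cons_zero, Fin.cons_succ]
      rw [hs _ (hx j), hs _ hc0]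
      ring
    have h6 : M' 0 0 = t i0 + s := by
      rw [hM', Matrix.of_apply, if_pos rfl, hM, Matrix.of_apply]
      simp only [Fin.cons_zero]
      rw [hs _ hc0]
      ring
    rw [Finset.sum_eq_zero (fun j _ => by rw [h5]; ring), h6, add_zero]
    have h7 : M'.submatrix Fin.succ (Fin.succAbove 0) =
        (Matrix.of fun i j => g j (f i)).map (Int.castRingHom ℝ) := by
      ext i j
      rw [Matrix.submatrix_apply, Fin.succAbove_zero, hM', Matrix.of_apply,
        if_neg (Fin.succ_ne_zero j), hM, Matrix.of_apply, Matrix.of_apply, Matrix.map_apply,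
        Matrix.of_apply, ← hxg j]
      simp only [Fin.cons_zero, Fin.cons_succ, Pi.sub_apply]
      push_cast
      simp only [eq_intCast, Int.cast_sub]
      ring
    rw [h7]
    have h8 : ((Matrix.of fun i j => g j (f i)).map (Int.castRingHom ℝ)).det =
        (((Matrix.of fun i j => g j (f i)).det : ℤ) : ℝ) := by
      have := (RingHom.map_det (Int.castRingHom ℝ) (Matrix.of fun i j => g j (f i))).symm
      simpa using this
    rw [h8]
    simp
  rw [← h3, h4, abs_mul] at h2
  have h9 : |(((Matrix.of fun i j => g j (f i)).det : ℤ) : ℝ)| ≤ 20 := by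
    have h10 := abs_nonneg (((Matrix.of fun i j => g j (f i)).det : ℤ) : ℝ)
    nlinarith
  exact_mod_cast h9

/-- Case 1: some coordinate of the shift is far from the integers. -/
theorem case_one : ∃ C : ℕ, ∀ (m : ℕ) (t : Fin m → ℝ) (A : Finset (Fin m → ℤ)),
    (∀ x ∈ A, ∀ i, -1 ≤ x i ∧ x i ≤ 1) → SubR t A →
    (∃ i, 1 / 20 ≤ t i ∧ t i ≤ 19 / 20) → A.card ≤ 2 * (1 + C * m ^ 2) := by
  obtain ⟨C, hC⟩ := quad 20
  refine ⟨C, ?_⟩
  rintro m t A hent hA ⟨i0, hi1, hi2⟩
  have hent2 : ∀ x ∈ A, x i0 = -1 ∨ x i0 = 0 := by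
    intro x hx
    have h1 := hA 1 (fun _ => i0) (fun _ => x) (fun _ => hx)
    rw [Matrix.det_fin_one, Matrix.of_apply, abs_le] at h1
    have h2 := hent x hx i0
    have h3 : x i0 ≤ 0 := by
      by_contra h
      have h4 : (1 : ℤ) ≤ x i0 := by omega
      have h5 : (1 : ℝ) ≤ (x i0 : ℝ) := by exact_mod_cast h4
      linarith
    omega
  have key : ∀ s : ℤ, (1 / 20 ≤ |t i0 + s|) →
      (A.filter (fun x => x i0 = s)).card ≤ 1 + C * m ^ 2 := by
    intro s hs
    obtain he | ⟨c0, hc0⟩ := (A.filter (fun x => x i0 = s)).eq_empty_or_nonempty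
    · rw [he]
      simp
    · have h1 : SubR t (A.filter (fun x => x i0 = s)) := by
        intro k f g hg
        exact hA k f g (fun j => (mem_filter.1 (hg j)).1)
      have h2 := diff_sub h1 (i0 := i0) (s := s) (fun x hx => (mem_filter.1 hx).2) hc0 hs
      have h3 := hC m _ h2
      rwa [card_image_of_injective _ (sub_left_injective)] at h3
  have h1 := key (-1) (by
    rw [abs_of_nonpos (by push_cast; linarith)]
    push_cast
    linarith)
  have h2 := key 0 (by
    rw [abs_of_nonneg (by push_cast; linarith)]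
    push_cast
    linarith)
  have h3 : A ⊆ A.filter (fun x => x i0 = -1) ∪ A.filter (fun x => x i0 = 0) := by
    intro x hx
    rw [mem_union, mem_filter, mem_filter]
    rcases hent2 x hx with h | h
    · exact Or.inl ⟨hx, h⟩
    · exact Or.inr ⟨hx, h⟩
  have h4 := (card_le_card h3).trans (card_union_le _ _)
  omega

end Q10.Heller
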