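import Pool.Agent.Q10.Heller.Upper

/-!
# The quadratic upper bound for the shifted Heller constant: the second case
-/

set_option autoImplicit false

open Finset

namespace Q10.Heller

/-- A perturbed `2 × 2` minor. -/
theorem two_by_two {a b c d : ℤ} {e1 e2 : ℝ} (he1 : |e1| < 1 / 20) (he2 : |e2| < 1 / 20)
    (ha : a = 1 ∨ a = -1) (hb : b = 1 ∨ b = -1) (hc : c = 1 ∨ c = -1) (hd : d = 1 ∨ d = -1)
    (h : |(e1 + a) * (e2 + d) - (e1 + b) * (e2 + c)| ≤ 1) : a * d = b * c := by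
  rw [abs_le] at h
  rw [abs_lt] at he1 he2
  obtain ⟨h1, h2⟩ := h
  obtain ⟨h3, h4⟩ := he1
  obtain ⟨h5, h6⟩ := he2
  rcases ha with rfl | rfl <;> rcases hb with rfl | rfl <;> rcases hc with rfl | rfl <;>
    rcases hd with rfl | rfl <;> first | rfl | (exfalso; push_cast at h1 h2; nlinarith)

/-- A perturbed `3 × 3` minor. -/
theorem three_by_three {x1 x2 y2 y3 z1 z3 : ℤ} {e1 e2 e3 : ℝ} (he1 : |e1| < 1 / 20)
    (he2 : |e2| < 1 / 20) (he3 : |e3| < 1 / 20)
    (hx1 : x1 = 1 ∨ x1 = -1) (hx2 : x2 = 1 ∨ x2 = -1) (hy2 : y2 = 1 ∨ y2 = -1)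
    (hy3 : y3 = 1 ∨ y3 = -1) (hz1 : z1 = 1 ∨ z1 = -1) (hz3 : z3 = 1 ∨ z3 = -1)
    (he : x1 * y2 * z3 = z1 * x2 * y3)
    (h : |(e1 + x1) * (e2 + y2) * (e3 + z3) - (e1 + x1) * e2 * (e3 + y3)
      - e1 * (e2 + x2) * (e3 + z3) + e1 * e2 * e3
      + (e1 + z1) * (e2 + x2) * (e3 + y3) - (e1 + z1) * (e2 + y2) * e3| ≤ 1) : False := by
  rw [abs_le] at h
  rw [abs_lt] at he1 he2 he3
  obtain ⟨h1, h2⟩ := h
  obtain ⟨h3, h4⟩ := he1
  obtain ⟨h5, h6⟩ := he2
  obtain ⟨h7, h8⟩ := he3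
  rcases hx1 with rfl | rfl <;> rcases hx2 with rfl | rfl <;> rcases hy2 with rfl | rfl <;>
    rcases hy3 with rfl | rfl <;> rcases hz1 with rfl | rfl <;> rcases hz3 with rfl | rfl <;>
    first | (norm_num at he; done) | (exfalso; push_cast at h1 h2; ring_nf at h1 h2; linarith)

theorem sign_rel {x1 x2 y2 y3 z1 z3 w1 w2 w3 : ℤ}
    (hx1 : x1 = 1 ∨ x1 = -1) (hx2 : x2 = 1 ∨ x2 = -1) (hy2 : y2 = 1 ∨ y2 = -1)
    (hy3 : y3 = 1 ∨ y3 = -1) (hz1 : z1 = 1 ∨ z1 = -1) (hz3 : z3 = 1 ∨ z3 = -1)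
    (hw1 : w1 = 1 ∨ w1 = -1) (hw2 : w2 = 1 ∨ w2 = -1) (hw3 : w3 = 1 ∨ w3 = -1)
    (h1 : x1 * w2 = w1 * x2) (h2 : y2 * w3 = w2 * y3) (h3 : z1 * w3 = w1 * z3) :
    x1 * y2 * z3 = z1 * x2 * y3 := by
  have e1 : w1 * w1 = 1 := by rcases hw1 with rfl | rfl <;> rfl
  have e2 : w2 * w2 = 1 := by rcases hw2 with rfl | rfl <;> rfl
  have e3 : w3 * w3 = 1 := by rcases hw3 with rfl | rfl <;> rfl
  have h4 : x2 = w1 * x1 * w2 := by linear_combination (-x2) * e1 - w1 * h1
  have h5 : y3 = w2 * y2 * w3 := by linear_combination (-y3) * e2 - w2 * h2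
  have h6 : z3 = w1 * z1 * w3 := by linear_combination (-z3) * e1 - w1 * h3
  rw [h4, h5, h6]
  linear_combination (-x1 * y2 * z1 * w1 * w3) * e2

/-- Case 2: all coordinates of the shift are near the integers. -/
theorem case_two {m : ℕ} {t : Fin m → ℝ} {A : Finset (Fin m → ℤ)}
    (hent : ∀ x ∈ A, ∀ i, -1 ≤ x i ∧ x i ≤ 1) (hA : SubR t A) (ht : ∀ i, 0 ≤ t i ∧ t i < 1)
    (h : ∀ i, t i < 1 / 20 ∨ 19 / 20 < t i) : A.card ≤ 2 * (1 + m + m ^ 2) := by
  obtain ⟨r, hr⟩ : ∃ r : Fin m → ℤ, r = fun i => if 19 / 20 < t i then 1 else 0 := ⟨_, rfl⟩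
  have hri : ∀ i, (r i = 1 ∧ 19 / 20 < t i) ∨ (r i = 0 ∧ t i < 1 / 20) := by
    intro i
    rw [hr]
    by_cases h1 : 19 / 20 < t i
    · left
      exact ⟨if_pos h1, h1⟩
    · right
      exact ⟨if_neg h1, (h i).resolve_right h1⟩
  obtain ⟨e, he⟩ : ∃ e : Fin m → ℝ, e = fun i => t i - r i := ⟨_, rfl⟩
  have hei : ∀ i, |e i| < 1 / 20 := by
    intro i
    rw [he, abs_lt]
    have h1 := ht i
    rcases hri i with ⟨h2, h3⟩ | ⟨h2, h3⟩ <;> dsimp only <;> rw [h2] <;> push_cast <;>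
      constructor <;> linarith
  obtain ⟨N, hN⟩ : ∃ N : (Fin m → ℤ) → (Fin m → ℤ), N = fun x i => x i + r i := ⟨_, rfl⟩
  have hte : ∀ x : Fin m → ℤ, ∀ i, t i + (x i : ℝ) = e i + (N x i : ℝ) := by
    intro x i
    rw [he, hN]
    push_cast
    ring
  have hNinj : Function.Injective N := by
    intro x y hxy
    funext i
    have h1 := congrFun hxy i
    rw [hN] at h1
    dsimp only at h1
    omega
  -- entries
  have F1 : ∀ x ∈ A, ∀ i, N x i ≠ 0 → N x i = 1 ∨ N x i = -1 := by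
    intro x hx i hne
    have h1 := hA 1 (fun _ => i) (fun _ => x) (fun _ => hx)
    rw [Matrix.det_fin_one, Matrix.of_apply, hte, abs_le] at h1
    have h2 := hei i
    rw [abs_lt] at h2
    have h3 : N x i < 2 := by
      by_contra h4
      have h5 : (2 : ℤ) ≤ N x i := by omega
      have h6 : (2 : ℝ) ≤ N x i := by exact_mod_cast h5
      linarith
    have h4 : -2 < N x i := by
      by_contra h4
      have h5 : N x i ≤ (-2 : ℤ) := by omega
      have h6 : (N x i : ℝ) ≤ -2 := by exact_mod_cast h5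
      linarith
    omega
  -- 2 × 2 minors
  have F2 : ∀ x ∈ A, ∀ y ∈ A, ∀ i j, N x i ≠ 0 → N x j ≠ 0 → N y i ≠ 0 → N y j ≠ 0 →
      N x i * N y j = N y i * N x j := by
    intro x hx y hy i j h1 h2 h3 h4
    have h5 := hA 2 ![i, j] ![x, y] (by
      intro q
      fin_cases q
      · exact hx
      · exact hy)
    rw [Matrix.det_fin_two] at h5
    simp only [Matrix.of_apply, Matrix.cons_val_zero, Matrix.cons_val_one, hte] at h5
    exact two_by_two (hei i) (hei j) (F1 x hx i h1) (F1 y hy i h3) (F1 x hx j h2) (F1 y hy j h4) h5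
  -- 3 × 3 minors
  have F3 : ∀ x ∈ A, ∀ y ∈ A, ∀ z ∈ A, ∀ w ∈ A, ∀ i j k,
      N x i ≠ 0 → N x j ≠ 0 → N x k = 0 → N y i = 0 → N y j ≠ 0 → N y k ≠ 0 →
      N z i ≠ 0 → N z j = 0 → N z k ≠ 0 → N w i ≠ 0 → N w j ≠ 0 → N w k ≠ 0 → False := by
    intro x hx y hy z hz w hw i j k x1 x2 x3 y1 y2 y3 z1 z2 z3 w1 w2 w3
    have h5 := hA 3 ![i, j, k] ![x, y, z] (by
      intro q
      fin_cases q
      · exact hx
      · exact hy
      · exact hz)
    rw [Matrix.det_fin_three] at h5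
    have h6 : |(t i + (x i : ℝ)) * (t j + (y j : ℝ)) * (t k + (z k : ℝ))
        - (t i + (x i : ℝ)) * (t j + (z j : ℝ)) * (t k + (y k : ℝ))
        - (t i + (y i : ℝ)) * (t j + (x j : ℝ)) * (t k + (z k : ℝ))
        + (t i + (y i : ℝ)) * (t j + (z j : ℝ)) * (t k + (x k : ℝ))
        + (t i + (z i : ℝ)) * (t j + (x j : ℝ)) * (t k + (y k : ℝ))
        - (t i + (z i : ℝ)) * (t j + (y j : ℝ)) * (t k + (x k : ℝ))| ≤ 1 := h5
    simp only [hte, x3, y1, z2] at h6
    refine three_by_three (hei i) (hei j) (hei k) (F1 x hx i x1) (F1 x hx j x2) (F1 y hy j y2)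
      (F1 y hy k y3) (F1 z hz i z1) (F1 z hz k z3)
      (sign_rel (F1 x hx i x1) (F1 x hx j x2) (F1 y hy j y2)
        (F1 y hy k y3) (F1 z hz i z1) (F1 z hz k z3) (F1 w hw i w1) (F1 w hw j w2) (F1 w hw k w3)
        (F2 x hx w hw i j x1 x2 w1 w2) (F2 y hy w hw j k y2 y3 w2 w3)
        (F2 z hz w hw i k z1 z3 w1 w3)) ?_
    convert h6 using 2
    push_cast
    ring
  obtain ⟨supp, hsupp⟩ : ∃ supp : (Fin m → ℤ) → Finset (Fin m),
    supp = fun x => univ.filter (fun i => N x i ≠ 0) := ⟨_, rfl⟩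
  have hsm : ∀ x i, i ∈ supp x ↔ N x i ≠ 0 := by
    intro x i
    rw [hsupp]
    simp
  -- at most two per support
  have G1 : A.card ≤ 2 * (A.image supp).card := by
    apply card_le_mul_card_image
    intro S hS
    obtain ⟨x, hx, rfl⟩ := mem_image.1 hS
    have h1 : A.filter (fun y => supp y = supp x) ⊆ {x, fun i => - N x i - r i} := by
      intro y hy
      obtain ⟨hyA, hys⟩ := mem_filter.1 hy
      rw [mem_insert, mem_singleton]
      by_cases hex : ∃ i, i ∈ supp x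
      · obtain ⟨i, hi⟩ := hex
        have hi' : i ∈ supp y := by rw [hys]; exact hi
        have a1 := F1 x hx i ((hsm x i).1 hi)
        have a2 := F1 y hyA i ((hsm y i).1 hi')
        have h2 : ∀ j, (N x j = 0 ∧ N y j = 0) ∨ (N x i * N y j = N y i * N x j) := by
          intro j
          by_cases hj : j ∈ supp x
          · right
            have hj' : j ∈ supp y := by rw [hys]; exact hj
            exact F2 x hx y hyA i j ((hsm x i).1 hi) ((hsm x j).1 hj) ((hsm y i).1 hi')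
              ((hsm y j).1 hj')
          · left
            have hj' : j ∉ supp y := by rw [hys]; exact hj
            rw [hsm, not_not] at hj hj'
            exact ⟨hj, hj'⟩
        by_cases hxy : N x i = N y i
        · left
          apply hNinj
          funext j
          rcases h2 j with ⟨h3, h4⟩ | h3
          · rw [h3, h4]
          · rcases a1 with h4 | h4 <;> rcases a2 with h5 | h5 <;> rw [h4, h5] at h3 <;> omega
        · right
          apply hNinj
          funext j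
          have h6 : N (fun i => - N x i - r i) j = - N x j := by
            rw [hN]
            dsimp only
            ring
          rw [h6]
          rcases h2 j with ⟨h3, h4⟩ | h3
          · rw [h3, h4]; rfl
          · rcases a1 with h4 | h4 <;> rcases a2 with h5 | h5 <;> rw [h4, h5] at h3 <;> omega
      · left
        apply hNinj
        funext j
        have h2 : j ∉ supp x := fun h => hex ⟨j, h⟩
        have h3 : j ∉ supp y := by rw [hys]; exact h2
        rw [hsm, not_not] at h2 h3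
        rw [h2, h3]
    exact (card_le_card h1).trans card_le_two
  -- the supports shatter no 3-set
  have G2 : (A.image supp).vcDim ≤ 2 := by
    rw [vcDim, Finset.sup_le_iff]
    intro s hs
    rw [mem_shatterer] at hs
    by_contra hcard
    push Not at hcard
    obtain ⟨s', hs's, hs'c⟩ := exists_subset_card_eq (show 3 ≤ s.card by omega)
    have hs' := hs.mono_right hs's
    obtain ⟨i, j, k, hij, hik, hjk, rfl⟩ := card_eq_three.1 hs'c
    obtain ⟨uw, huw, hw⟩ := hs' (t := {i, j, k}) (Subset.refl _)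
    obtain ⟨ux, hux, hx⟩ := hs' (t := {i, j}) (by
      intro q hq
      simp only [mem_insert, mem_singleton] at hq ⊢
      tauto)
    obtain ⟨uy, huy, hy⟩ := hs' (t := {j, k}) (by
      intro q hq
      simp only [mem_insert, mem_singleton] at hq ⊢
      tauto)
    obtain ⟨uz, huz, hz⟩ := hs' (t := {i, k}) (by
      intro q hq
      simp only [mem_insert, mem_singleton] at hq ⊢
      tauto)
    obtain ⟨w, hwA, rfl⟩ := mem_image.1 huw
    obtain ⟨x, hxA, rfl⟩ := mem_image.1 hux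
    obtain ⟨y, hyA, rfl⟩ := mem_image.1 huy
    obtain ⟨z, hzA, rfl⟩ := mem_image.1 huz
    have key : ∀ (u : Fin m → ℤ) (T : Finset (Fin m)), ({i, j, k} : Finset (Fin m)) ∩ supp u = T →
        (N u i ≠ 0 ↔ i ∈ T) ∧ (N u j ≠ 0 ↔ j ∈ T) ∧ (N u k ≠ 0 ↔ k ∈ T) := by
      rintro u T rfl
      simp [hsm]
    have kw := key w _ hw
    have kx := key x _ hx
    have ky := key y _ hy
    have kz := key z _ hz
    have hji := Ne.symm hij
    have hki := Ne.symm hik
    have hkj := Ne.symm hjk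
    simp [hij, hik, hjk, hji, hki, hkj] at kw kx ky kz
    exact F3 x hxA y hyA z hzA w hwA i j k kx.1 kx.2.1 kx.2.2 ky.1 ky.2.1 ky.2.2 kz.1 kz.2.1 kz.2.2
      kw.1 kw.2.1 kw.2.2
  have G3 : (A.image supp).card ≤ 1 + m + m ^ 2 := by
    refine (card_le_card_shatterer _).trans (card_shatterer_le_sum_vcDim.trans ?_)
    have h1 : Finset.Iic (A.image supp).vcDim ⊆ Finset.Iic 2 := by
      intro q hq
      rw [mem_Iic] at hq ⊢
      exact hq.trans G2
    refine (sum_le_sum_of_subset h1).trans ?_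
    rw [Fintype.card_fin]
    have h2 : Finset.Iic 2 = {0, 1, 2} := rfl
    rw [h2, sum_insert (by simp), sum_insert (by simp), sum_singleton]
    have h3 : m.choose 2 ≤ m ^ 2 := Nat.choose_le_pow m 2
    rw [Nat.choose_zero_right, Nat.choose_one_right]
    omega
  omega

end Q10.Heller
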